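import Mathlib

/-!
# Permutation groups normalising a transitive group with unique square roots

Let `A` be a transitive permutation group in which every element has exactly one square root and
let `G` normalise `A`.  If `A` is regular, or if `A` has an involutory symmetry `t` at a point `ω`
whose centraliser in `A` is the stabiliser `A_ω`, then `G` acts by automorphisms on a quasigroup:
the product `x * y` is the reflection of `y` in the point `x`.
-/

set_option autoImplicit false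

namespace Pool.Agent.Results.MP_a0202c_co.UniqueSquareRoots

universe u

open Function

variable {Ω : Type u}

theorem iself (g : Equiv.Perm Ω) (x : Ω) : g⁻¹ (g x) = x := g.symm_apply_apply x

theorem selfi (g : Equiv.Perm Ω) (x : Ω) : g (g⁻¹ x) = x := g.apply_symm_apply x

theorem inv_of (g : Equiv.Perm Ω) {x y : Ω} (h : g x = y) : g⁻¹ y = x := by
  rw [← h]; exact iself g x

/-- Case 1: `A` is regular. -/
theorem regular_case (G A : Subgroup (Equiv.Perm Ω)) (ω : Ω)
    (hGA : ∀ g ∈ G, ∀ a ∈ A, g * a * g⁻¹ ∈ A)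
    (htr : ∀ x : Ω, ∃ a ∈ A, a ω = x)
    (hsq : ∀ a ∈ A, ∃! b, b ∈ A ∧ b * b = a)
    (hreg : ∀ a ∈ A, a ω = ω → a = 1) :
    ∃ op : Ω → Ω → Ω, (∀ x, Bijective (op x)) ∧ (∀ y, Bijective fun x => op x y) ∧
      (∀ g ∈ G, ∀ x y, g (op x y) = op (g x) (g y)) ∧
      (∀ x, op x x = x) ∧ (∀ x y, op x (op x y) = y) ∧
      (∀ x y z, op x (op y z) = op (op x y) (op x z)) := by
  choose s hsA hsω using htr
  have huniq : ∀ a ∈ A, ∀ x, a ω = x → a = s x := by
    intro a ha x hx
    have h1 : (s x)⁻¹ * a = 1 := by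
      apply hreg _ (A.mul_mem (A.inv_mem (hsA x)) ha)
      rw [Equiv.Perm.mul_apply, hx]
      exact inv_of _ (hsω x)
    rw [inv_mul_eq_one] at h1
    exact h1.symm
  have hmem : ∀ x y, s x * (s y)⁻¹ * s x ∈ A := fun x y =>
    A.mul_mem (A.mul_mem (hsA x) (A.inv_mem (hsA y))) (hsA x)
  have hs : ∀ x y, s ((s x * (s y)⁻¹ * s x) ω) = s x * (s y)⁻¹ * s x := fun x y =>
    (huniq _ (hmem x y) _ rfl).symm
  have hinv : ∀ x y, (s x * (s ((s x * (s y)⁻¹ * s x) ω))⁻¹ * s x) ω = y := by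
    intro x y
    rw [hs]
    have : s x * (s x * (s y)⁻¹ * s x)⁻¹ * s x = s y := by group
    rw [this, hsω]
  refine ⟨fun x y => (s x * (s y)⁻¹ * s x) ω, ?_, ?_, ?_, ?_, ?_, ?_⟩
  · intro x
    exact Function.Involutive.bijective (f := fun y => (s x * (s y)⁻¹ * s x) ω)
      (fun y => hinv x y)
  · intro y
    constructor
    · intro x x' h
      have h1 : s x * (s y)⁻¹ * s x = s x' * (s y)⁻¹ * s x' := by
        rw [← hs x y, ← hs x' y]
        exact congrArg s h
      have h2 : s x * (s y)⁻¹ * (s x * (s y)⁻¹) = s x' * (s y)⁻¹ * (s x' * (s y)⁻¹) := by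
        rw [← mul_assoc, h1]
        group
      have h3 := (hsq (s x * (s y)⁻¹ * (s x * (s y)⁻¹)) (A.mul_mem
        (A.mul_mem (hsA x) (A.inv_mem (hsA y))) (A.mul_mem (hsA x) (A.inv_mem (hsA y))))).unique
        ⟨A.mul_mem (hsA x) (A.inv_mem (hsA y)), rfl⟩
        ⟨A.mul_mem (hsA x') (A.inv_mem (hsA y)), h2.symm⟩
      have h4 : s x = s x' := mul_right_cancel h3
      rw [← hsω x, ← hsω x', h4]
    · intro z
      obtain ⟨r, ⟨hr, hr2⟩, -⟩ := hsq (s z * (s y)⁻¹) (A.mul_mem (hsA z) (A.inv_mem (hsA y)))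
      refine ⟨(r * s y) ω, ?_⟩
      have h1 : s ((r * s y) ω) = r * s y := (huniq _ (A.mul_mem hr (hsA y)) _ rfl).symm
      change (s ((r * s y) ω) * (s y)⁻¹ * s ((r * s y) ω)) ω = z
      rw [h1]
      have h2 : r * s y * (s y)⁻¹ * (r * s y) = s z := by
        calc r * s y * (s y)⁻¹ * (r * s y) = r * r * s y := by group
          _ = s z := by rw [hr2]; group
      rw [h2, hsω]
  · intro g hg x y
    have hd : ∀ z, s (g z) = g * s z * g⁻¹ * s (g ω) := by
      intro z
      refine (huniq _ (A.mul_mem (hGA g hg _ (hsA z)) (hsA _)) _ ?_).symm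
      simp only [Equiv.Perm.mul_apply, hsω, iself]
    change g ((s x * (s y)⁻¹ * s x) ω) = (s (g x) * (s (g y))⁻¹ * s (g x)) ω
    rw [hd x, hd y]
    have : g * s x * g⁻¹ * s (g ω) * (g * s y * g⁻¹ * s (g ω))⁻¹ * (g * s x * g⁻¹ * s (g ω)) =
        g * (s x * (s y)⁻¹ * s x) * g⁻¹ * s (g ω) := by group
    rw [this]
    simp only [Equiv.Perm.mul_apply, hsω, iself]
  · intro x
    change (s x * (s x)⁻¹ * s x) ω = x
    have : s x * (s x)⁻¹ * s x = s x := by group
    rw [this, hsω]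
  · exact fun x y => hinv x y
  · intro x y z
    change (s x * (s ((s y * (s z)⁻¹ * s y) ω))⁻¹ * s x) ω =
      (s ((s x * (s y)⁻¹ * s x) ω) * (s ((s x * (s z)⁻¹ * s x) ω))⁻¹ *
        s ((s x * (s y)⁻¹ * s x) ω)) ω
    rw [hs, hs, hs]
    congr 1
    group

/-- Case 2: there is a symmetry `t` at `ω`. -/
theorem symmetric_case (G A : Subgroup (Equiv.Perm Ω)) (ω : Ω)
    (hGA : ∀ g ∈ G, ∀ a ∈ A, g * a * g⁻¹ ∈ A)
    (htr : ∀ x : Ω, ∃ a ∈ A, a ω = x)
    (hsq : ∀ a ∈ A, ∃! b, b ∈ A ∧ b * b = a)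
    (t : Equiv.Perm Ω) (htω : t ω = ω) (htt : t * t = 1) (htA : ∀ a ∈ A, t * a * t ∈ A)
    (hc : ∀ g ∈ G, ∀ a ∈ A, (g * a) ω = ω → t * (g * a) = g * a * t)
    (hf : ∀ a ∈ A, t * a = a * t → a ω = ω) :
    ∃ op : Ω → Ω → Ω, (∀ x, Bijective (op x)) ∧ (∀ y, Bijective fun x => op x y) ∧
      (∀ g ∈ G, ∀ x y, g (op x y) = op (g x) (g y)) ∧
      (∀ x, op x x = x) ∧ (∀ x y, op x (op x y) = y) ∧
      (∀ x y z, op x (op y z) = op (op x y) (op x z)) := by
  choose s hsA hsω using htr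
  have hti : t⁻¹ = t := by
    rw [inv_eq_iff_mul_eq_one]
    exact htt
  -- the reflection does not depend on the choice of the element
  have hkey : ∀ g ∈ G, ∀ a ∈ A, ∀ x, (g * a) ω = x →
      g * a * t * (g * a)⁻¹ = s x * t * (s x)⁻¹ := by
    intro g hg a ha x hx
    have h1 : (g * (g⁻¹ * (s x)⁻¹ * g * a)) ω = ω := by
      have : g * (g⁻¹ * (s x)⁻¹ * g * a) = (s x)⁻¹ * (g * a) := by group
      rw [this, Equiv.Perm.mul_apply, hx]
      exact inv_of _ (hsω x)
    have hm : g⁻¹ * (s x)⁻¹ * g * a ∈ A := by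
      have := hGA g⁻¹ (G.inv_mem hg) _ (A.inv_mem (hsA x))
      rw [inv_inv] at this
      exact A.mul_mem this ha
    have h2 := hc g hg _ hm h1
    have h3 : g * (g⁻¹ * (s x)⁻¹ * g * a) = (s x)⁻¹ * (g * a) := by group
    rw [h3] at h2
    calc g * a * t * (g * a)⁻¹ = s x * ((s x)⁻¹ * (g * a) * t) * (g * a)⁻¹ := by group
      _ = s x * (t * ((s x)⁻¹ * (g * a))) * (g * a)⁻¹ := by rw [h2]
      _ = s x * t * (s x)⁻¹ := by group
  have hkeyA : ∀ a ∈ A, ∀ x, a ω = x → a * t * a⁻¹ = s x * t * (s x)⁻¹ := by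
    intro a ha x hx
    have := hkey 1 G.one_mem a ha x (by rw [one_mul]; exact hx)
    rwa [one_mul] at this
  -- `σ x` is the reflection in `x`
  set σ : Ω → Equiv.Perm Ω := fun x => s x * t * (s x)⁻¹ with hσ
  have σσ : ∀ x, σ x * σ x = 1 := by
    intro x
    calc σ x * σ x = s x * (t * t) * (s x)⁻¹ := by simp only [hσ]; group
      _ = 1 := by rw [htt]; group
  have σG : ∀ g ∈ G, ∀ x, g * σ x * g⁻¹ = σ (g x) := by
    intro g hg x
    have h1 := hkey g hg (s x) (hsA x) (g x) (by rw [Equiv.Perm.mul_apply, hsω])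
    change g * (s x * t * (s x)⁻¹) * g⁻¹ = s (g x) * t * (s (g x))⁻¹
    rw [← h1]
    group
  have σA : ∀ a ∈ A, ∀ x, a * σ x * a⁻¹ = σ (a x) := by
    intro a ha x
    have h1 := hkeyA (a * s x) (A.mul_mem ha (hsA x)) (a x) (by rw [Equiv.Perm.mul_apply, hsω])
    change a * (s x * t * (s x)⁻¹) * a⁻¹ = s (a x) * t * (s (a x))⁻¹
    rw [← h1]
    group
  have σω : σ ω = t := by
    have := hkeyA 1 A.one_mem ω rfl
    rw [one_mul, inv_one, mul_one] at this
    exact this.symm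
  have tconj : ∀ a : Equiv.Perm Ω, t * (t * a * t) * t = a := by
    intro a
    calc t * (t * a * t) * t = (t * t) * a * (t * t) := by group
      _ = a := by rw [htt]; group
  have tinv : ∀ a : Equiv.Perm Ω, (t * a * t)⁻¹ = t * a⁻¹ * t := by
    intro a
    rw [mul_inv_rev, mul_inv_rev, hti, mul_assoc]
  have tmul : ∀ a b : Equiv.Perm Ω, t * (a * b) * t = (t * a * t) * (t * b * t) := by
    intro a b
    calc t * (a * b) * t = t * a * 1 * b * t := by group
      _ = (t * a * t) * (t * b * t) := by rw [← htt]; group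
  -- square roots of inverted elements are inverted
  have hroot : ∀ r ∈ A, t * (r * r) * t = (r * r)⁻¹ → t * r * t = r⁻¹ := by
    intro r hr h
    refine (hsq (r * r)⁻¹ (A.inv_mem (A.mul_mem hr hr))).unique ⟨htA r hr, ?_⟩
      ⟨A.inv_mem hr, by rw [mul_inv_rev]⟩
    rw [← tmul, h]
  -- polar decomposition
  have hpolar : ∀ x, ∃ r ∈ A, t * r * t = r⁻¹ ∧ r ω = x := by
    intro x
    set a := s x with ha
    have hp : a * (t * a⁻¹ * t) ∈ A := A.mul_mem (hsA x) (htA _ (A.inv_mem (hsA x)))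
    obtain ⟨r, ⟨hr, hr2⟩, -⟩ := hsq _ hp
    have h1 : t * r * t = r⁻¹ := by
      apply hroot r hr
      rw [hr2, tmul, tconj a⁻¹, mul_inv_rev, tinv, inv_inv]
    refine ⟨r, hr, h1, ?_⟩
    have h2 : t * a * t = (r * r)⁻¹ * a := by
      rw [hr2, mul_inv_rev, tinv, inv_inv]
      group
    have h3 : (r⁻¹ * a) ω = ω := by
      apply hf _ (A.mul_mem (A.inv_mem hr) (hsA x))
      have h4 : t * (r⁻¹ * a) * t = r⁻¹ * a := by
        rw [tmul, ← tinv, h1, inv_inv, h2]
        group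
      calc t * (r⁻¹ * a) = t * (r⁻¹ * a) * (t * t) := by rw [htt, mul_one]
        _ = (t * (r⁻¹ * a) * t) * t := by group
        _ = r⁻¹ * a * t := by rw [h4]
    rw [Equiv.Perm.mul_apply, Equiv.Perm.inv_eq_iff_eq] at h3
    rw [← h3]
    exact hsω x
  have hval : ∀ r ∈ A, t * r * t = r⁻¹ → σ (r ω) ω = (r * r) ω := by
    intro r hr h
    have h1 : σ (r ω) = r * t * r⁻¹ := (hkeyA r hr _ rfl).symm
    rw [h1]
    have h2 : r * t * r⁻¹ = r * r * t := by
      have : t * r⁻¹ * t = r := by rw [← tinv, h, inv_inv]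
      calc r * t * r⁻¹ = r * (t * r⁻¹ * (t * t)) := by rw [htt]; group
        _ = r * (t * r⁻¹ * t) * t := by group
        _ = r * r * t := by rw [this]
    rw [h2, Equiv.Perm.mul_apply, htω]
  have hbase : Bijective fun x => σ x ω := by
    constructor
    · intro x x' h
      obtain ⟨r, hr, h1, rfl⟩ := hpolar x
      obtain ⟨r', hr', h1', rfl⟩ := hpolar x'
      have h2 : (r * r) ω = (r' * r') ω := by
        rw [← hval r hr h1, ← hval r' hr' h1']
        exact h
      have h3 : (1 * ((r' * r')⁻¹ * (r * r))) ω = ω := by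
        rw [one_mul, Equiv.Perm.mul_apply, h2, iself]
      have hm : (r' * r')⁻¹ * (r * r) ∈ A :=
        A.mul_mem (A.inv_mem (A.mul_mem hr' hr')) (A.mul_mem hr hr)
      have h4 := hc 1 G.one_mem _ hm h3
      rw [one_mul] at h4
      have h5 : t * ((r' * r')⁻¹ * (r * r)) * t = (r' * r')⁻¹ * (r * r) := by
        rw [h4, mul_assoc, htt, mul_one]
      have h6 : t * ((r' * r')⁻¹ * (r * r)) * t = r' * r' * (r * r)⁻¹ := by
        rw [tmul, ← tinv, tmul r' r', tmul r r, h1, h1']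
        simp only [mul_inv_rev, inv_inv]
      rw [h6] at h5
      have h7 : (r * r) * (r * r) = (r' * r') * (r' * r') := by
        calc (r * r) * (r * r) = (r' * r') * ((r' * r')⁻¹ * (r * r)) * (r * r) := by group
          _ = (r' * r') * (r' * r' * (r * r)⁻¹) * (r * r) := by rw [h5]
          _ = _ := by group
      have h8 : r * r = r' * r' :=
        (hsq _ (A.mul_mem (A.mul_mem hr' hr') (A.mul_mem hr' hr'))).unique
          ⟨A.mul_mem hr hr, h7⟩ ⟨A.mul_mem hr' hr', rfl⟩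
      have h9 : r = r' := (hsq _ (A.mul_mem hr' hr')).unique ⟨hr, h8⟩ ⟨hr', rfl⟩
      rw [h9]
    · intro z
      obtain ⟨q, hq, h1, rfl⟩ := hpolar z
      obtain ⟨r, ⟨hr, hr2⟩, -⟩ := hsq q hq
      have h2 : t * r * t = r⁻¹ := hroot r hr (by rw [hr2, h1])
      exact ⟨r ω, by rw [← hr2]; exact hval r hr h2⟩
  refine ⟨fun x y => σ x y, fun x => (σ x).bijective, ?_, ?_, ?_, ?_, ?_⟩
  · intro y
    have h1 : (fun x => σ x y) = (s y) ∘ (fun x => σ x ω) ∘ ((s y)⁻¹ : Equiv.Perm Ω) := by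
      funext x
      have := σA (s y) (hsA y) ((s y)⁻¹ x)
      rw [selfi] at this
      simp only [Function.comp_apply]
      rw [← this]
      simp only [Equiv.Perm.mul_apply]
      congr 2
      exact inv_of _ (hsω y)
    rw [h1]
    exact (s y).bijective.comp (hbase.comp (Equiv.bijective _))
  · intro g hg x y
    change g (σ x y) = σ (g x) (g y)
    rw [← σG g hg x]
    simp only [Equiv.Perm.mul_apply, iself]
  · intro x
    change (s x * t * (s x)⁻¹) x = x
    have h1 : (s x)⁻¹ x = ω := inv_of _ (hsω x)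
    rw [Equiv.Perm.mul_apply, Equiv.Perm.mul_apply, h1, htω, hsω]
  · intro x y
    change σ x (σ x y) = y
    rw [← Equiv.Perm.mul_apply, σσ, Equiv.Perm.one_apply]
  · intro x y z
    change σ x (σ y z) = σ (σ x y) (σ x z)
    have h0 : σ x * σ y * (σ x)⁻¹ = σ (σ x y) := by
      have hm : s x * (t * ((s x)⁻¹ * s y) * t) ∈ A :=
        A.mul_mem (hsA x) (htA _ (A.mul_mem (A.inv_mem (hsA x)) (hsA y)))
      have hv : (s x * (t * ((s x)⁻¹ * s y) * t)) ω = σ x y := by
        simp only [hσ, Equiv.Perm.mul_apply, htω, hsω]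
      have h1 := hkeyA _ hm _ hv
      change σ x * σ y * (σ x)⁻¹ = s (σ x y) * t * (s (σ x y))⁻¹
      rw [← h1]
      simp only [hσ]
      have hti' : t⁻¹ = t := hti
      calc s x * t * (s x)⁻¹ * (s y * t * (s y)⁻¹) * (s x * t * (s x)⁻¹)⁻¹
          = s x * t * (s x)⁻¹ * s y * t * (s y)⁻¹ * s x * t⁻¹ * (s x)⁻¹ := by group
        _ = s x * t * (s x)⁻¹ * s y * (t * t * t) * (s y)⁻¹ * s x * t⁻¹ * (s x)⁻¹ := by
            rw [htt, one_mul]
        _ = s x * t * (s x)⁻¹ * s y * (t * t * t⁻¹) * (s y)⁻¹ * s x * t⁻¹ * (s x)⁻¹ := by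
            rw [hti]
        _ = s x * (t * ((s x)⁻¹ * s y) * t) * t * (s x * (t * ((s x)⁻¹ * s y) * t))⁻¹ := by
            group
    rw [← h0]
    simp only [Equiv.Perm.mul_apply, iself]

/-- Groups of odd order have unique square roots. -/
theorem unique_root_of_odd (A : Subgroup (Equiv.Perm Ω)) (h : Odd (Nat.card A)) :
    ∀ a ∈ A, ∃! b, b ∈ A ∧ b * b = a := by
  intro a ha
  have hco : (Nat.card A).Coprime 2 := h.coprime_two_right
  have hb : Bijective fun b : A => b ^ 2 := (powCoprime hco).bijective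
  obtain ⟨⟨b, hbA⟩, hb2⟩ := hb.2 ⟨a, ha⟩
  refine ⟨b, ⟨hbA, ?_⟩, ?_⟩
  · have := congrArg Subtype.val hb2
    simpa [pow_two] using this
  · rintro c ⟨hcA, hc2⟩
    have h1 : (⟨c, hcA⟩ : A) ^ 2 = (⟨b, hbA⟩ : A) ^ 2 := by
      refine Eq.trans ?_ hb2.symm
      apply Subtype.ext
      simpa [pow_two] using hc2
    exact congrArg Subtype.val (hb.1 h1)

/-- Let `A` be a transitive group of permutations of `Ω` (of any cardinality) in which every element
has exactly one square root (for instance a finite group of odd order), and let `G` be any group of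
permutations that normalises `A`. Suppose that `A` is regular, or that there is an involutory
permutation `t` fixing the point `ω`, normalising `A`, commuting with the elements of `G A` that fix
`ω`, and such that each element of `A` commuting with `t` fixes `ω`. Then some quasigroup on `Ω` has
all elements of `G` as automorphisms; it can be chosen idempotent with `x(xy) = y` and
`x(yz) = (xy)(xz)`. -/
theorem result (Ω : Type u) (G A : Subgroup (Equiv.Perm Ω)) (ω : Ω)
    (hGA : ∀ g ∈ G, ∀ a ∈ A, g * a * g⁻¹ ∈ A)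
    (htr : ∀ x : Ω, ∃ a ∈ A, a ω = x)
    (hsq : Odd (Nat.card A) ∨ ∀ a ∈ A, ∃! b, b ∈ A ∧ b * b = a)
    (h : (∀ a ∈ A, a ω = ω → a = 1) ∨
      ∃ t : Equiv.Perm Ω, t ω = ω ∧ t * t = 1 ∧ (∀ a ∈ A, t * a * t ∈ A) ∧
        (∀ g ∈ G, ∀ a ∈ A, (g * a) ω = ω → t * (g * a) = g * a * t) ∧
        ∀ a ∈ A, t * a = a * t → a ω = ω) :
    ∃ op : Ω → Ω → Ω, (∀ x, Bijective (op x)) ∧ (∀ y, Bijective fun x => op x y) ∧
      (∀ g ∈ G, ∀ x y, g (op x y) = op (g x) (g y)) ∧
      (∀ x, op x x = x) ∧ (∀ x y, op x (op x y) = y) ∧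
      (∀ x y z, op x (op y z) = op (op x y) (op x z)) := by
  have hsq' : ∀ a ∈ A, ∃! b, b ∈ A ∧ b * b = a := by
    rcases hsq with h' | h'
    · exact unique_root_of_odd A h'
    · exact h'
  rcases h with h | ⟨t, h1, h2, h3, h4, h5⟩
  · exact regular_case G A ω hGA htr hsq' h
  · exact symmetric_case G A ω hGA htr hsq' t h1 h2 h3 h4 h5

end Pool.Agent.Results.MP_a0202c_co.UniqueSquareRoots
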